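import Pool.Agent.Run7.h820.SR.Stm

/-!
# Piece LIP of project SR (helper820): Lipschitz bound from the Cauchy estimate
-/

set_option autoImplicit false
open Complex Filter Topology Set Metric MeasureTheory

namespace Run7.h820.SR

theorem t_LIP : S_LIP := by
  intro κ B g hκ hB hd hb w w' hw hw'
  have hexp : Real.exp (κ / 2) + κ / 2 ≤ Real.exp κ := by
    have h1 : Real.exp κ = Real.exp (κ / 2) * Real.exp (κ / 2) := by
      rw [← Real.exp_add]; congr 1; ring
    have h2 : κ / 2 + 1 ≤ Real.exp (κ / 2) := Real.add_one_le_exp (κ / 2)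
    have h3 : 1 ≤ Real.exp (κ / 2) := by linarith
    rw [h1]
    nlinarith
  have hexp2 : Real.exp κ < Real.exp (2 * κ) := Real.exp_lt_exp.2 (by linarith)
  have hsub : ∀ z : ℂ, ‖z‖ ≤ Real.exp (κ / 2) → ∀ y ∈ closedBall z (κ / 2), ‖y‖ ≤ Real.exp κ := by
    intro z hz y hy
    rw [mem_closedBall, dist_eq_norm] at hy
    have : ‖y‖ ≤ ‖y - z‖ + ‖z‖ := by
      have h := norm_add_le (y - z) z
      rwa [sub_add_cancel] at h
    linarith
  have hdiff : ∀ z : ℂ, ‖z‖ ≤ Real.exp κ → DifferentiableAt ℂ g z := by
    intro z hz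
    refine hd.differentiableAt (isOpen_ball.mem_nhds ?_)
    rw [mem_ball, dist_zero_right]
    linarith
  have hder : ∀ z : ℂ, ‖z‖ ≤ Real.exp (κ / 2) → ‖deriv g z‖ ≤ 2 * B / κ := by
    intro z hz
    have hdc : DiffContOnCl ℂ g (ball z (κ / 2)) := by
      refine DifferentiableOn.diffContOnCl ?_
      intro y hy
      refine (hdiff y (hsub z hz y ?_)).differentiableWithinAt
      exact closure_ball_subset_closedBall hy
    have h := Complex.norm_deriv_le_of_forall_mem_sphere_norm_le (c := z) (R := κ / 2) (C := B)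
      (f := g) (by linarith) hdc (fun y hy => hb y (hsub z hz y (sphere_subset_closedBall hy)))
    have h2 : B / (κ / 2) = 2 * B / κ := by field_simp
    rwa [h2] at h
  have hfin := Convex.norm_image_sub_le_of_norm_deriv_le (𝕜 := ℂ) (f := g) (C := 2 * B / κ)
    (s := closedBall (0 : ℂ) (Real.exp (κ / 2))) (x := w') (y := w)
    (fun z hz => hdiff z (by
      rw [mem_closedBall, dist_zero_right] at hz
      linarith))
    (fun z hz => hder z (by rwa [mem_closedBall, dist_zero_right] at hz))
    (convex_closedBall _ _) (by rwa [mem_closedBall, dist_zero_right])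
    (by rwa [mem_closedBall, dist_zero_right])
  exact hfin

end Run7.h820.SR
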